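import Pool.Agent.H774R2.HR.Local

set_option autoImplicit false

open scoped Topology ComplexConjugate
open Set Filter Complex Metric

namespace Pool.Agent.H774R2.HR

section Gen

variable {V E : Type} [NormedAddCommGroup V] [NormedSpace ℂ V] [NormedAddCommGroup E]
  [NormedSpace ℂ E]

/-- local extendability at every point of every closed ball -/
def LocExt (f : V → E) : Prop :=
  ∀ R > 0, ∀ F : V → E, AnalyticOnNhd ℂ F (ball 0 R) → F =ᶠ[𝓝 0] f →
    ∀ ζ ∈ closedBall (0 : V) R, ∃ δ > 0, ∃ G : V → E, AnalyticOnNhd ℂ G (ball ζ δ) ∧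
      ∀ z ∈ ball ζ δ, z ∈ ball (0 : V) R → G z = F z

/-- the set of radii to which `f` extends -/
def Radii (f : V → E) : Set ℝ :=
  {R | 0 < R ∧ ∃ F : V → E, AnalyticOnNhd ℂ F (ball 0 R) ∧ F =ᶠ[𝓝 0] f}

theorem eqOn_convex {F G : V → E} {U : Set V} (hc : Convex ℝ U)
    (hF : AnalyticOnNhd ℂ F U) (hG : AnalyticOnNhd ℂ G U) {x : V} (hx : x ∈ U)
    (h : F =ᶠ[𝓝 x] G) : EqOn F G U :=
  hF.eqOn_of_preconnected_of_eventuallyEq hG hc.isPreconnected hx h

theorem extend_step [FiniteDimensional ℂ V] {f : V → E} (hf : LocExt f) {R : ℝ} (hR : R ∈ Radii f) :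
    ∃ R' > R, R' ∈ Radii f := by
  obtain ⟨hR0, F, hF, hFf⟩ := hR
  have hloc := hf R hR0 F hF hFf
  choose! δ hδ G hG hGF using hloc
  have : ProperSpace V := FiniteDimensional.proper ℂ V
  have hcomp : IsCompact (closedBall (0 : V) R) := isCompact_closedBall 0 R
  obtain ⟨ε, hε, hleb⟩ := lebesgue_number_lemma_of_metric (c := fun ζ : closedBall (0 : V) R =>
    ball (ζ : V) (δ ζ)) hcomp (fun _ => isOpen_ball) (by
      intro x hx
      exact mem_iUnion.2 ⟨⟨x, hx⟩, mem_ball_self (hδ x hx)⟩)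
  have hunif : ∀ x ∈ closedBall (0 : V) R, ∃ G : V → E, AnalyticOnNhd ℂ G (ball x ε) ∧
      ∀ z ∈ ball x ε, z ∈ ball (0 : V) R → G z = F z := by
    intro x hx
    obtain ⟨ζ, hζ⟩ := hleb x hx
    exact ⟨G ζ, (hG ζ ζ.2).mono hζ, fun z hz hzR => hGF ζ ζ.2 z (hζ hz) hzR⟩
  choose! K hK hKF using hunif
  set R' := R + ε / 2 with hR'
  have hRR' : R < R' := by linarith
  have hR'0 : 0 < R' := by linarith
  set c : ℝ := R / R' with hc
  have hc0 : 0 ≤ c := by positivity
  have hc1 : c < 1 := (div_lt_one hR'0).2 hRR'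
  have hcR : c * R' = R := by rw [hc]; field_simp
  have hcz : ∀ z ∈ ball (0 : V) R', c • z ∈ ball (0 : V) R := by
    intro z hz
    rw [mem_ball_zero_iff] at *
    rw [norm_smul, Real.norm_of_nonneg hc0, ← hcR]
    rcases hc0.lt_or_eq with h | h
    · exact mul_lt_mul_of_pos_left hz h
    · exfalso
      rw [← h, zero_mul] at hcR
      linarith
  have hczε : ∀ z ∈ ball (0 : V) R', z ∈ ball (c • z) ε := by
    intro z hz
    rw [mem_ball_zero_iff] at hz
    rw [mem_ball, dist_eq_norm]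
    have : z - c • z = (1 - c) • z := by rw [sub_smul, one_smul]
    rw [this, norm_smul, Real.norm_of_nonneg (by linarith)]
    calc (1 - c) * ‖z‖ ≤ (1 - c) * R' := by
          apply mul_le_mul_of_nonneg_left hz.le (by linarith)
      _ = R' - R := by rw [← hcR]; ring
      _ < ε := by rw [hR']; linarith
  -- two local extensions agree
  have hagree : ∀ x ∈ ball (0 : V) R, ∀ y ∈ ball (0 : V) R, dist x y < ε →
      ∀ z ∈ ball x ε, z ∈ ball y ε → K x z = K y z := by
    intro x hx y hy hxy z hzx hzy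
    have hx' := ball_subset_closedBall hx
    have hy' := ball_subset_closedBall hy
    have hev : K x =ᶠ[𝓝 x] K y := by
      filter_upwards [isOpen_ball.mem_nhds (mem_ball_self (x := x) hε), isOpen_ball.mem_nhds hx,
        isOpen_ball.mem_nhds (show x ∈ ball y ε from hxy)] with w h1 h2 h3
      rw [hKF x hx' w h1 h2, hKF y hy' w h3 h2]
    exact eqOn_convex ((convex_ball x ε).inter (convex_ball y ε))
      ((hK x hx').mono inter_subset_left) ((hK y hy').mono inter_subset_right)
      ⟨mem_ball_self hε, hxy⟩ hev ⟨hzx, hzy⟩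
  refine ⟨R', hRR', hR'0, fun z => K (c • z) z, ?_, ?_⟩
  · intro z hz
    have h1 : AnalyticAt ℂ (K (c • z)) z := hK _ (ball_subset_closedBall (hcz z hz)) z (hczε z hz)
    apply h1.congr
    have h2 : ∀ᶠ w in 𝓝 z, dist (c • z) (c • w) < ε := by
      have : Continuous (fun w : V => dist (c • z) (c • w)) := by fun_prop
      have h3 := this.tendsto z
      rw [dist_self] at h3
      exact h3.eventually_lt_const hε
    filter_upwards [isOpen_ball.mem_nhds hz, h2, isOpen_ball.mem_nhds (hczε z hz)] with w hw h3 h4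
    exact hagree _ (hcz z hz) _ (hcz w hw) h3 w h4 (hczε w hw)
  · have h0 : (0 : V) ∈ ball (0 : V) R := mem_ball_self hR0
    filter_upwards [isOpen_ball.mem_nhds h0, hFf] with z hz hzf
    rw [← hzf]
    exact hKF _ (ball_subset_closedBall (hcz z (ball_subset_ball hRR'.le hz))) z
      (hczε z (ball_subset_ball hRR'.le hz)) hz

/-- extension to the union of the balls -/
theorem extend_union {f : V → E} :
    ∃ F : V → E, ((Radii f).Nonempty → F =ᶠ[𝓝 0] f) ∧
      ∀ R ∈ Radii f, AnalyticOnNhd ℂ F (ball 0 R) := by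
  classical
  have hex : ∀ R, R ∈ Radii f → ∃ F : V → E, AnalyticOnNhd ℂ F (ball 0 R) ∧ F =ᶠ[𝓝 0] f :=
    fun R hR => hR.2
  choose! Φ hΦ hΦf using hex
  have hρ : ∀ z : V, (∃ R ∈ Radii f, z ∈ ball (0 : V) R) → ∃ R, R ∈ Radii f ∧ z ∈ ball (0 : V) R :=
    fun z h => by simpa using h
  choose! ρ hρ hρz using hρ
  have key : ∀ R ∈ Radii f, ∀ w ∈ ball (0 : V) R, Φ (ρ w) w = Φ R w := by
    intro R hR w hw
    have h1 := hρ w ⟨R, hR, hw⟩
    have h2 := hρz w ⟨R, hR, hw⟩
    have h0 : (0 : V) ∈ ball (0 : V) (ρ w) ∩ ball 0 R := ⟨mem_ball_self h1.1, mem_ball_self hR.1⟩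
    exact eqOn_convex ((convex_ball 0 (ρ w)).inter (convex_ball 0 R))
      ((hΦ _ h1).mono inter_subset_left) ((hΦ R hR).mono inter_subset_right) h0
      ((hΦf _ h1).trans (hΦf R hR).symm) ⟨h2, hw⟩
  refine ⟨fun z => Φ (ρ z) z, ?_, ?_⟩
  · rintro ⟨R, hR⟩
    filter_upwards [isOpen_ball.mem_nhds (mem_ball_self (x := (0 : V)) hR.1), hΦf R hR] with z h1 h2
    rw [key R hR z h1, h2]
  · intro R hR z hz
    apply (hΦ R hR z hz).congr
    filter_upwards [isOpen_ball.mem_nhds hz] with w hw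
    exact (key R hR w hw).symm

/-- a germ that extends locally everywhere extends to an entire map -/
theorem entire_extension [FiniteDimensional ℂ V] [CompleteSpace E] {f : V → E} (hf0 : AnalyticAt ℂ f 0)
    (hf : LocExt f) : ∃ F : V → E, (∀ z, AnalyticAt ℂ F z) ∧ F =ᶠ[𝓝 0] f := by
  obtain ⟨r, hr, hfr⟩ := hf0.exists_ball_analyticOnNhd
  have hne : (Radii f).Nonempty := ⟨r, hr, f, hfr, Filter.EventuallyEq.rfl⟩
  obtain ⟨F, hFf, hF⟩ := extend_union (f := f)
  refine ⟨F, ?_, hFf hne⟩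
  by_cases hb : BddAbove (Radii f)
  · exfalso
    have hR0 : 0 < sSup (Radii f) := lt_of_lt_of_le hr (le_csSup hb ⟨hr, f, hfr, Filter.EventuallyEq.rfl⟩)
    have hmem : sSup (Radii f) ∈ Radii f := by
      refine ⟨hR0, F, ?_, hFf hne⟩
      intro z hz
      rw [mem_ball_zero_iff] at hz
      obtain ⟨R, hR, hzR⟩ := exists_lt_of_lt_csSup hne hz
      exact hF R hR z (by rwa [mem_ball_zero_iff])
    obtain ⟨R', h1, h2⟩ := extend_step hf hmem
    exact absurd (le_csSup hb h2) (not_le.2 h1)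
  · intro z
    rw [not_bddAbove_iff] at hb
    obtain ⟨R, hR, hzR⟩ := hb ‖z‖
    exact hF R hR z (by rwa [mem_ball_zero_iff])

end Gen

/-- functionals vanishing on a family with vanishing minors -/
theorem exists_functional {N : ℕ} {X : Type} (g : X → Fin N → ℂ)
    (h : ∀ x : Fin N → X, (Matrix.of fun l m => g (x l) m).det = 0) :
    ∃ c : Fin N → ℂ, c ≠ 0 ∧ ∀ x, ∑ m, c m * g x m = 0 := by
  set V : Submodule ℂ (Fin N → ℂ) := Submodule.span ℂ (range g) with hV
  have hVne : V ≠ ⊤ := by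
    intro htop
    obtain ⟨b, hb, hspan, hli⟩ := exists_linearIndependent ℂ (range g)
    have hspan' : Submodule.span ℂ b = ⊤ := by rw [hspan]; exact htop
    have hbasis : ⊤ ≤ Submodule.span ℂ (range ((↑) : b → (Fin N → ℂ))) := by
      rw [Subtype.range_coe, hspan']
    let B := Module.Basis.mk hli hbasis
    have : Fintype b := FiniteDimensional.fintypeBasisIndex B
    have hcard : Fintype.card b = N := by
      have := Module.finrank_eq_card_basis B
      simpa using this.symm
    let e : Fin N ≃ b := (Fintype.equivFinOfCardEq hcard).symm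
    have hy : ∀ m : Fin N, ∃ y, g y = (e m : Fin N → ℂ) := fun m => hb (e m).2
    choose y hy using hy
    have hdet := h y
    have hli2 : LinearIndependent ℂ (fun m : Fin N => (e m : Fin N → ℂ)) :=
      hli.comp e e.injective
    have hunit := (Matrix.linearIndependent_rows_iff_isUnit
      (A := Matrix.of fun m l => (e m : Fin N → ℂ) l)).1 hli2
    rw [Matrix.isUnit_iff_isUnit_det] at hunit
    apply hunit.ne_zero
    rw [← hdet]
    congr 1
    ext l m
    simp only [Matrix.of_apply]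
    rw [← hy l]
  obtain ⟨φ, hφ, hVφ⟩ := Submodule.exists_le_ker_of_lt_top V (lt_top_iff_ne_top.2 hVne)
  refine ⟨fun l => φ (Pi.single l 1), ?_, ?_⟩
  · intro h0
    apply hφ
    apply LinearMap.pi_ext'
    intro l
    ext
    simpa using congrFun h0 l
  · intro x
    have h1 : φ (g x) = 0 := hVφ (Submodule.subset_span ⟨x, rfl⟩)
    have h2 : g x = ∑ l, g x l • (Pi.single l 1 : Fin N → ℂ) := by
      funext j
      simp [Finset.sum_apply, Pi.single_apply]
    rw [h2, map_sum] at h1
    rw [← h1]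
    apply Finset.sum_congr rfl
    intro l _
    rw [map_smul, smul_eq_mul]
    simp [mul_comm]

end Pool.Agent.H774R2.HR
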