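import Pool.Agent.H774R2.HR.Extend

set_option autoImplicit false

open scoped Topology ComplexConjugate
open Set Filter Complex Metric

namespace Pool.Agent.H774R2.HR

variable {n N k : ℕ} {p : (Fin n → ℂ) → ℝ}

theorem star_mem_ball {ζ z : Fin n → ℂ} {δ : ℝ} : star z ∈ ball ζ δ ↔ z ∈ ball (star ζ) δ := by
  rw [mem_ball, mem_ball, dist_eq_norm, dist_eq_norm, ← norm_star (star z - ζ), star_sub, star_star]

theorem star_mem_ball_zero {z : Fin n → ℂ} {δ : ℝ} :
    star z ∈ ball (0 : Fin n → ℂ) δ ↔ z ∈ ball (0 : Fin n → ℂ) δ := by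
  rw [star_mem_ball, star_zero]

theorem spanning {R : ℝ} (hR : 0 < R) {C : (Fin n → ℂ) → Fin N → ℂ}
    (hC : AnalyticOnNhd ℂ C (ball 0 R)) (hind : GermIndep C) {Ω : Set (Fin n → ℂ)} (hΩ : IsOpen Ω)
    (hne : Ω.Nonempty) (hsub : Ω ⊆ ball 0 R) :
    ∃ v : Fin N → Fin n → ℂ, (∀ l, v l ∈ Ω) ∧ (Matrix.of fun l m => C (v l) m).det ≠ 0 := by
  by_contra hcon
  push Not at hcon
  obtain ⟨c, hc, hc0⟩ := exists_functional (X := Ω) (fun v => C v)
    (fun x => hcon (fun l => (x l : Fin n → ℂ)) (fun l => (x l).2))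
  apply hc
  apply hind
  obtain ⟨x, hx⟩ := hne
  have h1 : AnalyticOnNhd ℂ (fun z => ∑ b, c b * C z b) (ball 0 R) := by
    intro z hz
    apply Finset.analyticAt_fun_sum
    intro b _
    exact analyticAt_const.mul (analyticAt_pi_iff.1 (hC z hz) b)
  have h2 : (fun z => ∑ b, c b * C z b) =ᶠ[𝓝 x] 0 := by
    filter_upwards [hΩ.mem_nhds hx] with z hz
    exact hc0 ⟨z, hz⟩
  have h3 := h1.eqOn_zero_of_preconnected_of_eventuallyEq_zero (convex_ball 0 R).isPreconnected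
    (hsub hx) h2
  filter_upwards [isOpen_ball.mem_nhds (mem_ball_self (x := (0 : Fin n → ℂ)) hR)] with z hz
  exact h3 hz

/-- the decomposition propagates to the ball -/
theorem decomp_ball (hp : AnalyticOnNhd ℝ p univ) {R : ℝ} (hR : 0 < R)
    {U C : (Fin n → ℂ) → Fin N → ℂ} (hU : AnalyticOnNhd ℂ U (ball 0 R))
    (hC : AnalyticOnNhd ℂ C (ball 0 R))
    (h : ∀ᶠ z in 𝓝 (0 : Fin n → ℂ), (p z : ℂ) = ∑ b, U z b * C (star z) b) :
    ∀ z ∈ ball (0 : Fin n → ℂ) R, (p z : ℂ) = ∑ b, U z b * C (star z) b := by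
  have h1 : AnalyticOnNhd ℝ (fun z => (p z : ℂ)) (ball 0 R) := fun z _ =>
    (Complex.ofRealCLM.analyticAt _).comp_of_eq (hp z (mem_univ _)) rfl
  have h2 : AnalyticOnNhd ℝ (fun z => ∑ b, U z b * C (star z) b) (ball 0 R) := by
    intro z hz
    apply Finset.analyticAt_fun_sum
    intro b _
    have e1 : AnalyticAt ℝ (fun z => U z b) z :=
      (analyticAt_pi_iff.1 (hU z hz) b).restrictScalars
    have e2 : AnalyticAt ℝ (fun z => C z b) (star z) :=
      (analyticAt_pi_iff.1 (hC (star z) (star_mem_ball_zero.2 hz)) b).restrictScalars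
    have e3 : AnalyticAt ℝ (fun z : Fin n → ℂ => star z) z :=
      ((starL' ℝ : (Fin n → ℂ) ≃L[ℝ] (Fin n → ℂ)) : (Fin n → ℂ) →L[ℝ] (Fin n → ℂ)).analyticAt z
    exact e1.mul (e2.comp_of_eq e3 rfl)
  exact h1.eqOn_of_preconnected_of_eventuallyEq h2 (convex_ball 0 R).isPreconnected
    (mem_ball_self hR) h

/-- polarised decomposition near a point of the closed ball -/
theorem decomp_polar {R : ℝ} {U C : (Fin n → ℂ) → Fin N → ℂ} (hU : AnalyticOnNhd ℂ U (ball 0 R))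
    (hC : AnalyticOnNhd ℂ C (ball 0 R))
    (h : ∀ z ∈ ball (0 : Fin n → ℂ) R, (p z : ℂ) = ∑ b, U z b * C (star z) b)
    {ζ : Fin n → ℂ} {δ : ℝ} {P : (Fin n → ℂ) × (Fin n → ℂ) → ℂ}
    (hP : AnalyticOnNhd ℂ P {x | x.1 ∈ ball ζ δ ∧ star x.2 ∈ ball ζ δ})
    (hPp : ∀ z ∈ ball ζ δ, P (z, star z) = p z) :
    ∀ z ∈ ball ζ δ ∩ ball 0 R, ∀ w, star w ∈ ball ζ δ ∩ ball 0 R →
      P (z, w) = ∑ b, U z b * C w b := by
  have hG : AnalyticOnNhd ℂ (fun x : (Fin n → ℂ) × (Fin n → ℂ) => P x - ∑ b, U x.1 b * C x.2 b)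
      {x | x.1 ∈ ball ζ δ ∩ ball 0 R ∧ star x.2 ∈ ball ζ δ ∩ ball 0 R} := by
    rintro ⟨z, w⟩ ⟨hz, hw⟩
    apply (hP (z, w) ⟨hz.1, hw.1⟩).sub
    apply Finset.analyticAt_fun_sum
    intro b _
    have e1 : AnalyticAt ℂ (fun x : (Fin n → ℂ) × (Fin n → ℂ) => U x.1 b) (z, w) :=
      (analyticAt_pi_iff.1 (hU z hz.2) b).comp_of_eq analyticAt_fst rfl
    have e2 : AnalyticAt ℂ (fun x : (Fin n → ℂ) × (Fin n → ℂ) => C x.2 b) (z, w) :=
      (analyticAt_pi_iff.1 (hC w (star_mem_ball_zero.1 hw.2)) b).comp_of_eq analyticAt_snd rfl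
    exact e1.mul e2
  have h0 := polar_eq (isOpen_ball.inter isOpen_ball) ((convex_ball ζ δ).inter (convex_ball 0 R)) hG (by
    intro z hz
    rw [hPp z hz.1, h z hz.2, sub_self])
  intro z hz w hw
  exact sub_eq_zero.1 (h0 z hz w hw)

theorem inter_nonempty {R δ : ℝ} (hR : 0 < R) (hδ : 0 < δ) {ζ : Fin n → ℂ}
    (hζ : ζ ∈ closedBall (0 : Fin n → ℂ) R) : (ball ζ δ ∩ ball 0 R).Nonempty := by
  rw [← closure_ball _ hR.ne'] at hζ
  obtain ⟨y, hy, hd⟩ := Metric.mem_closure_iff.1 hζ δ hδ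
  exact ⟨y, by rwa [mem_ball, dist_comm], hy⟩

theorem loc_ext (hp : AnalyticOnNhd ℝ p univ) {u c : (Fin n → ℂ) → Fin N → ℂ}
    (hu : GermIndep u) (hc : GermIndep c)
    (h : ∀ᶠ z in 𝓝 (0 : Fin n → ℂ), (p z : ℂ) = ∑ b, u z b * c (star z) b) :
    LocExt (fun z => (u z, c z)) := by
  intro R hR F hF hFf ζ hζ
  have hU : AnalyticOnNhd ℂ (fun z => (F z).1) (ball 0 R) := fun z hz =>
    analyticAt_fst.comp_of_eq (hF z hz) rfl
  have hC : AnalyticOnNhd ℂ (fun z => (F z).2) (ball 0 R) := fun z hz =>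
    analyticAt_snd.comp_of_eq (hF z hz) rfl
  have hUind : GermIndep (fun z => (F z).1) := by
    intro a ha
    apply hu
    filter_upwards [ha, hFf] with z h1 h2
    rw [h2] at h1
    exact h1
  have hCind : GermIndep (fun z => (F z).2) := by
    intro a ha
    apply hc
    filter_upwards [ha, hFf] with z h1 h2
    rw [h2] at h1
    exact h1
  have hstar : Tendsto (fun z : Fin n → ℂ => star z) (𝓝 0) (𝓝 0) := by
    have := (continuous_star (R := Fin n → ℂ)).tendsto 0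
    rwa [star_zero] at this
  have hdec := decomp_ball hp hR hU hC (by
    filter_upwards [h, hFf, hstar.eventually hFf] with z h1 h2 h3
    rw [h1, h2, h3])
  -- extension of `U`
  obtain ⟨δ₁, hδ₁, P₁, hP₁, hPp₁⟩ := local_polar hp ζ
  have hpol₁ := decomp_polar hU hC hdec hP₁ hPp₁
  obtain ⟨y₁, hy₁⟩ := inter_nonempty hR hδ₁ hζ
  obtain ⟨v₁, hv₁, hdet₁⟩ := spanning hR hC hCind
    (Ω := (fun z => star z) ⁻¹' (ball ζ δ₁ ∩ ball 0 R))
    ((isOpen_ball.inter isOpen_ball).preimage continuous_star)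
    ⟨star y₁, by simpa using hy₁⟩ (fun z hz => star_mem_ball_zero.1 hz.2)
  -- extension of `C`
  obtain ⟨δ₂, hδ₂, P₂, hP₂, hPp₂⟩ := local_polar hp (star ζ)
  have hpol₂ := decomp_polar hU hC hdec hP₂ hPp₂
  have hζ' : star ζ ∈ closedBall (0 : Fin n → ℂ) R := by
    rw [mem_closedBall_zero_iff] at *
    rwa [norm_star]
  obtain ⟨v₂, hv₂, hdet₂⟩ := spanning hR hU hUind (Ω := ball (star ζ) δ₂ ∩ ball 0 R)
    (isOpen_ball.inter isOpen_ball) (inter_nonempty hR hδ₂ hζ') inter_subset_right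
  set M₁ : Matrix (Fin N) (Fin N) ℂ := Matrix.of fun l m => (F (v₁ l)).2 m with hM₁
  set M₂ : Matrix (Fin N) (Fin N) ℂ := Matrix.of fun l m => (F (v₂ l)).1 m with hM₂
  refine ⟨min δ₁ δ₂, lt_min hδ₁ hδ₂, fun z => (M₁⁻¹.mulVec fun l => P₁ (z, v₁ l),
    M₂⁻¹.mulVec fun l => P₂ (v₂ l, z)), ?_, ?_⟩
  · intro z hz
    have hz1 : z ∈ ball ζ δ₁ := ball_subset_ball (min_le_left _ _) hz
    have hz2 : z ∈ ball ζ δ₂ := ball_subset_ball (min_le_right _ _) hz
    apply AnalyticAt.prod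
    · rw [analyticAt_pi_iff]
      intro b
      simp only [Matrix.mulVec, dotProduct]
      apply Finset.analyticAt_fun_sum
      intro l _
      apply analyticAt_const.mul
      exact (hP₁ (z, v₁ l) ⟨hz1, (hv₁ l).1⟩).comp_of_eq (analyticAt_id.prod analyticAt_const) rfl
    · rw [analyticAt_pi_iff]
      intro b
      simp only [Matrix.mulVec, dotProduct]
      apply Finset.analyticAt_fun_sum
      intro l _
      apply analyticAt_const.mul
      exact (hP₂ (v₂ l, z) ⟨(hv₂ l).1, by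
        rw [star_mem_ball, star_star]; exact hz2⟩).comp_of_eq (analyticAt_const.prod analyticAt_id) rfl
  · intro z hz hzR
    have hz1 : z ∈ ball ζ δ₁ := ball_subset_ball (min_le_left _ _) hz
    have hz2 : z ∈ ball ζ δ₂ := ball_subset_ball (min_le_right _ _) hz
    have e1 : (fun l => P₁ (z, v₁ l)) = M₁.mulVec (F z).1 := by
      funext l
      rw [hpol₁ z ⟨hz1, hzR⟩ (v₁ l) (hv₁ l)]
      simp only [Matrix.mulVec, dotProduct, hM₁, Matrix.of_apply]
      apply Finset.sum_congr rfl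
      intro b _
      ring
    have e2 : (fun l => P₂ (v₂ l, z)) = M₂.mulVec (F z).2 := by
      funext l
      rw [hpol₂ (v₂ l) (hv₂ l) z ⟨by rw [star_mem_ball, star_star]; exact hz2,
        star_mem_ball_zero.2 hzR⟩]
      simp only [Matrix.mulVec, dotProduct, hM₂, Matrix.of_apply]
    simp only [e1, e2, Matrix.mulVec_mulVec,
      Matrix.nonsing_inv_mul M₁ (isUnit_iff_ne_zero.2 hdet₁),
      Matrix.nonsing_inv_mul M₂ (isUnit_iff_ne_zero.2 hdet₂), Matrix.one_mulVec]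

/-- the main decomposition -/
theorem exists_decomp (hp : AnalyticOnNhd ℝ p univ) (hk : LineRank k p) :
    ∃ N ≤ (k ^ n) ^ n, ∃ u d : Fin N → (Fin n → ℂ) → ℂ, (∀ b, Differentiable ℂ (u b)) ∧
      (∀ b, Differentiable ℂ (d b)) ∧ ∀ z, (p z : ℂ) = ∑ b, u b z * conj (d b z) := by
  obtain ⟨N, hN, u, c, hu, hc, hui, hci, h⟩ := local_rank hp hk
  obtain ⟨F, hF, hFf⟩ := entire_extension (f := fun z => (u z, c z)) (hu.prod hc)
    (loc_ext hp hui hci h)
  have hU : ∀ R : ℝ, AnalyticOnNhd ℂ (fun z => (F z).1) (ball 0 R) := fun R z _ =>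
    analyticAt_fst.comp_of_eq (hF z) rfl
  have hC : ∀ R : ℝ, AnalyticOnNhd ℂ (fun z => (F z).2) (ball 0 R) := fun R z _ =>
    analyticAt_snd.comp_of_eq (hF z) rfl
  have hstar : Tendsto (fun z : Fin n → ℂ => star z) (𝓝 0) (𝓝 0) := by
    have := (continuous_star (R := Fin n → ℂ)).tendsto 0
    rwa [star_zero] at this
  have hdec : ∀ z, (p z : ℂ) = ∑ b, (F z).1 b * (F (star z)).2 b := by
    intro z
    have hR : 0 < ‖z‖ + 1 := by positivity
    apply decomp_ball hp hR (hU _) (hC _) _ z (by rw [mem_ball_zero_iff]; linarith)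
    filter_upwards [h, hFf, hstar.eventually hFf] with z h1 h2 h3
    rw [h1, h2, h3]
  refine ⟨N, hN, fun b z => (F z).1 b, fun b z => star ((F (star z)).2 b), ?_, ?_, ?_⟩
  · intro b z
    exact (analyticAt_pi_iff.1 (hU (‖z‖ + 1) z (by rw [mem_ball_zero_iff]; linarith)) b).differentiableAt
  · intro b z
    have h1 : DifferentiableAt ℂ (fun z => (F z).2 b) (star z) :=
      (analyticAt_pi_iff.1 (hC (‖star z‖ + 1) (star z)
        (by rw [mem_ball_zero_iff]; linarith)) b).differentiableAt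
    have h2 := h1.star_star
    rw [star_star] at h2
    exact h2
  · intro z
    rw [hdec z]
    apply Finset.sum_congr rfl
    intro b _
    simp

/-- entire representation of length `2 (k ^ n) ^ n` -/
theorem exists_rep (hp : AnalyticOnNhd ℝ p univ) (hk : LineRank k p) :
    ∃ (ε : Fin (2 * (k ^ n) ^ n) → ℝ) (f : Fin (2 * (k ^ n) ^ n) → (Fin n → ℂ) → ℂ),
      (∀ j, ε j = 1 ∨ ε j = -1) ∧ (∀ j, Differentiable ℂ (f j)) ∧
      ∀ z, p z = ∑ j, ε j * Complex.normSq (f j z) := by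
  obtain ⟨N, hN, u, d, hu, hd, h⟩ := exists_decomp hp hk
  set m := (k ^ n) ^ n with hm
  have e : Fin (2 * m) ≃ Fin m ⊕ Fin m := (finCongr (two_mul m)).trans finSumFinEquiv.symm
  set f₀ : Fin m ⊕ Fin m → (Fin n → ℂ) → ℂ := Sum.elim
    (fun b z => if hb : (b : ℕ) < N then (u ⟨b, hb⟩ z + d ⟨b, hb⟩ z) / 2 else 0)
    (fun b z => if hb : (b : ℕ) < N then (u ⟨b, hb⟩ z - d ⟨b, hb⟩ z) / 2 else 0) with hf₀
  have hε : ∀ s : Fin m ⊕ Fin m, (Sum.elim (fun _ => (1 : ℝ)) (fun _ => -1) s : ℝ) = 1 ∨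
      (Sum.elim (fun _ => (1 : ℝ)) (fun _ => -1) s : ℝ) = -1 := by
    rintro (b | b)
    · left; rfl
    · right; rfl
  have hfd : ∀ s, Differentiable ℂ (f₀ s) := by
    rintro (b | b)
    · by_cases hb : (b : ℕ) < N
      · simp only [hf₀, Sum.elim_inl, hb, dif_pos, div_eq_mul_inv]
        intro z
        exact (((hu ⟨b, hb⟩) z).fun_add ((hd ⟨b, hb⟩) z)).mul_const _
      · simp only [hf₀, Sum.elim_inl, hb]
        exact differentiable_const _
    · by_cases hb : (b : ℕ) < N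
      · simp only [hf₀, Sum.elim_inr, hb, dif_pos, div_eq_mul_inv]
        intro z
        exact (((hu ⟨b, hb⟩) z).fun_sub ((hd ⟨b, hb⟩) z)).mul_const _
      · simp only [hf₀, Sum.elim_inr, hb]
        exact differentiable_const _
  refine ⟨fun j => Sum.elim (fun _ => 1) (fun _ => -1) (e j), fun j => f₀ (e j), fun j => hε (e j),
    fun j => hfd (e j), ?_⟩
  · intro z
    rw [e.sum_comp (fun s => Sum.elim (fun _ => (1 : ℝ)) (fun _ => -1) s * Complex.normSq (f₀ s z)),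
      Fintype.sum_sum_type]
    simp only [Sum.elim_inl, Sum.elim_inr, one_mul, neg_mul, Finset.sum_neg_distrib]
    rw [← sub_eq_add_neg, ← Finset.sum_sub_distrib]
    have h1 : p z = ∑ b : Fin N, (u b z * conj (d b z)).re := by
      have := congrArg Complex.re (h z)
      rwa [Complex.ofReal_re, Complex.re_sum] at this
    rw [h1]
    have h2 : ∀ b : Fin m, Complex.normSq (f₀ (Sum.inl b) z) - Complex.normSq (f₀ (Sum.inr b) z) =
        if hb : (b : ℕ) < N then (u ⟨b, hb⟩ z * conj (d ⟨b, hb⟩ z)).re else 0 := by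
      intro b
      by_cases hb : (b : ℕ) < N
      · simp only [hf₀, Sum.elim_inl, Sum.elim_inr, hb, dif_pos]
        rw [map_div₀, map_div₀, Complex.normSq_add, Complex.normSq_sub]
        have : Complex.normSq 2 = 4 := by norm_num [Complex.normSq_apply]
        rw [this]
        ring
      · simp only [hf₀, Sum.elim_inl, Sum.elim_inr, hb]
        simp
    rw [Finset.sum_congr rfl fun b _ => h2 b]
    set G : ℕ → ℝ := fun i => if hb : i < N then (u ⟨i, hb⟩ z * conj (d ⟨i, hb⟩ z)).re else 0 with hG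
    have h3 : ∑ b : Fin m, (if hb : (b : ℕ) < N then (u ⟨b, hb⟩ z * conj (d ⟨b, hb⟩ z)).re else 0) =
        ∑ i ∈ Finset.range m, G i := Fin.sum_univ_eq_sum_range G m
    have h4 : ∑ b : Fin N, (u b z * conj (d b z)).re = ∑ i ∈ Finset.range N, G i := by
      rw [← Fin.sum_univ_eq_sum_range G N]
      apply Finset.sum_congr rfl
      intro b _
      simp [hG]
    rw [h3, h4]
    apply Finset.sum_subset (Finset.range_mono hN)
    intro i _ hi
    simp only [hG]
    rw [dif_neg]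
    simpa using hi

end Pool.Agent.H774R2.HR
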