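import Pool.Agent.H774R2.HR.Polar

set_option autoImplicit false

open scoped Topology ComplexConjugate
open Set Filter Complex Metric

namespace Pool.Agent.H774R2.HR

/-- a matrix that factors through `Fin k` has vanishing determinant of size `k + 1` -/
theorem det_zero_of_factor {k : ℕ} (A : Matrix (Fin (k + 1)) (Fin k) ℂ) (B : Matrix (Fin k) (Fin (k + 1)) ℂ) :
    (A * B).det = 0 := by
  have h : ∃ v : Fin (k + 1) → ℂ, v ≠ 0 ∧ B.mulVec v = 0 := by
    have h1 := LinearMap.ker_ne_bot_of_finrank_lt (f := B.mulVecLin) (by simp)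
    obtain ⟨v, hv, hv0⟩ := Submodule.exists_mem_ne_zero_of_ne_bot h1
    exact ⟨v, hv0, by simpa using hv⟩
  obtain ⟨v, hv, hBv⟩ := h
  apply Matrix.exists_mulVec_eq_zero_iff.1
  exact ⟨v, hv, by rw [← Matrix.mulVec_mulVec, hBv, Matrix.mulVec_zero]⟩

/-- every complex line restriction of `p` is a sum of `k` terms `± |entire|²` -/
def LineRank {n : ℕ} (k : ℕ) (p : (Fin n → ℂ) → ℝ) : Prop :=
  ∀ a b : Fin n → ℂ, ∃ (ε : Fin k → ℝ) (g : Fin k → ℂ → ℂ), (∀ j, Differentiable ℂ (g j)) ∧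
    ∀ t : ℂ, p (a + t • b) = ∑ j, ε j * Complex.normSq (g j t)

section
variable {n k : ℕ} {p : (Fin n → ℂ) → ℝ} {P : (Fin n → ℂ) × (Fin n → ℂ) → ℂ} {ρ : ℝ}

theorem line_polar (hp : LineRank k p)
    (hP : AnalyticOnNhd ℂ P {x | x.1 ∈ ball 0 ρ ∧ star x.2 ∈ ball (0 : Fin n → ℂ) ρ})
    (hPp : ∀ z ∈ ball (0 : Fin n → ℂ) ρ, P (z, star z) = p z) {a b : Fin n → ℂ}
    (ha : a ∈ ball (0 : Fin n → ℂ) (ρ / 2)) (hb : b ∈ ball (0 : Fin n → ℂ) (ρ / 2)) :
    ∃ (ε : Fin k → ℂ) (g : Fin k → ℂ → ℂ), ∀ t s : ℂ, ‖t‖ < 1 → ‖s‖ < 1 →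
      P (a + t • b, star a + s • star b) = ∑ j, ε j * g j t * conj (g j (conj s)) := by
  obtain ⟨ε, g, hg, h⟩ := hp a b
  refine ⟨fun j => (ε j : ℂ), g, ?_⟩
  have hin : ∀ t : ℂ, ‖t‖ < 1 → a + t • b ∈ ball (0 : Fin n → ℂ) ρ := by
    intro t ht
    rw [mem_ball_zero_iff] at *
    calc ‖a + t • b‖ ≤ ‖a‖ + ‖t‖ * ‖b‖ := (norm_add_le _ _).trans (by rw [norm_smul])
      _ ≤ ‖a‖ + 1 * ‖b‖ := by gcongr
      _ < ρ := by linarith
  set G : (Unit → ℂ) × (Unit → ℂ) → ℂ := fun x => P (a + x.1 () • b, star a + x.2 () • star b) -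
    ∑ j, (ε j : ℂ) * g j (x.1 ()) * conj (g j (conj (x.2 ()))) with hG
  have hGa : AnalyticOnNhd ℂ G {x | x.1 ∈ ball (0 : Unit → ℂ) 1 ∧ star x.2 ∈ ball (0 : Unit → ℂ) 1} := by
    rintro ⟨x, y⟩ ⟨hx, hy⟩
    have hx' : ‖x ()‖ < 1 := by
      rw [mem_ball_zero_iff] at hx
      exact (norm_le_pi_norm x ()).trans_lt hx
    have hy' : ‖y ()‖ < 1 := by
      rw [mem_ball_zero_iff, norm_star] at hy
      exact (norm_le_pi_norm y ()).trans_lt hy
    have e1 : AnalyticAt ℂ (fun x : (Unit → ℂ) × (Unit → ℂ) => x.1 ()) (x, y) :=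
      ((ContinuousLinearMap.proj (R := ℂ) (φ := fun _ : Unit => ℂ) ()).comp
        (ContinuousLinearMap.fst ℂ (Unit → ℂ) (Unit → ℂ))).analyticAt _
    have e2 : AnalyticAt ℂ (fun x : (Unit → ℂ) × (Unit → ℂ) => x.2 ()) (x, y) :=
      ((ContinuousLinearMap.proj (R := ℂ) (φ := fun _ : Unit => ℂ) ()).comp
        (ContinuousLinearMap.snd ℂ (Unit → ℂ) (Unit → ℂ))).analyticAt _
    apply AnalyticAt.sub
    · have hPa : AnalyticAt ℂ P (a + x () • b, star a + y () • star b) := by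
        apply hP
        refine ⟨hin _ hx', ?_⟩
        show star (star a + y () • star b) ∈ _
        rw [star_add, star_star, star_smul, star_star]
        apply hin
        rwa [norm_star]
      exact hPa.comp_of_eq (AnalyticAt.prod (analyticAt_const.add (e1.smul analyticAt_const))
        (analyticAt_const.add (e2.smul analyticAt_const))) rfl
    · apply Finset.analyticAt_fun_sum
      intro j _
      have g1 : AnalyticAt ℂ (fun x : (Unit → ℂ) × (Unit → ℂ) => g j (x.1 ())) (x, y) :=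
        ((hg j).analyticAt _).comp_of_eq e1 rfl
      have hgc : Differentiable ℂ (fun s : ℂ => conj (g j (conj s))) := by
        intro s
        have := (hg j (conj s))
        exact differentiableAt_conj_conj_iff.2 this
      have g2 : AnalyticAt ℂ (fun x : (Unit → ℂ) × (Unit → ℂ) => conj (g j (conj (x.2 ())))) (x, y) :=
        (hgc.analyticAt _).comp_of_eq e2 rfl
      exact (analyticAt_const.mul g1).mul g2
  have hG0 : ∀ z ∈ ball (0 : Unit → ℂ) 1, G (z, star z) = 0 := by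
    intro z hz
    have hz' : ‖z ()‖ < 1 := by
      rw [mem_ball_zero_iff] at hz
      exact (norm_le_pi_norm z ()).trans_lt hz
    simp only [hG]
    have e : star a + (star z) () • star b = star (a + z () • b) := by
      rw [star_add, star_smul]; rfl
    rw [e, hPp _ (hin _ hz'), h]
    push_cast
    rw [← Finset.sum_sub_distrib]
    apply Finset.sum_eq_zero
    intro j _
    have : conj ((star z) ()) = z () := by simp
    rw [this, mul_assoc, Complex.mul_conj]
    ring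
  have := polar_eq isOpen_ball (convex_ball 0 1) hGa hG0
  intro t s ht hs
  have h2 := this (fun _ => t) (by rw [mem_ball_zero_iff, pi_norm_lt_iff one_pos]; intro _; exact ht)
    (fun _ => s) (by rw [mem_ball_zero_iff, norm_star, pi_norm_lt_iff one_pos]; intro _; exact hs)
  simp only [hG] at h2
  exact sub_eq_zero.1 h2


theorem line_det (hp : LineRank k p)
    (hP : AnalyticOnNhd ℂ P {x | x.1 ∈ ball 0 ρ ∧ star x.2 ∈ ball (0 : Fin n → ℂ) ρ})
    (hPp : ∀ z ∈ ball (0 : Fin n → ℂ) ρ, P (z, star z) = p z) {a b a' b' : Fin n → ℂ}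
    (ha : ‖a‖ < ρ / 2) (hb : ‖b‖ < ρ / 2) (ha' : ‖a'‖ < ρ / 2) (hb' : ‖b'‖ < ρ / 2)
    (t s : Fin (k + 1) → ℂ) (ht : ∀ i, ‖t i‖ < 1) (hs : ∀ i, ‖s i‖ < 1) :
    (Matrix.of fun i j => P (a + t i • b, a' + s j • b')).det = 0 := by
  have hρ : 0 < ρ := by linarith [norm_nonneg a]
  have hin : ∀ (a b : Fin n → ℂ) (t : ℂ), ‖a‖ < ρ / 2 → ‖b‖ < ρ / 2 → ‖t‖ < 1 →
      a + t • b ∈ ball (0 : Fin n → ℂ) ρ := by
    intro a b t ha hb ht
    rw [mem_ball_zero_iff] at *
    calc ‖a + t • b‖ ≤ ‖a‖ + ‖t‖ * ‖b‖ := (norm_add_le _ _).trans (by rw [norm_smul])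
      _ ≤ ‖a‖ + 1 * ‖b‖ := by gcongr
      _ < ρ := by linarith
  set L : Bool → (Fin n ⊕ Fin n → ℂ) →L[ℂ] (Fin n → ℂ) := fun c =>
    ContinuousLinearMap.pi (fun i => ContinuousLinearMap.proj (R := ℂ) (φ := fun _ => ℂ)
      (cond c (Sum.inl i) (Sum.inr i))) with hL
  have hLn : ∀ (c : Bool) (x : Fin n ⊕ Fin n → ℂ), ‖x‖ < ρ / 2 → ‖L c x‖ < ρ / 2 := by
    intro c x hx
    rw [pi_norm_lt_iff (by linarith)]
    intro i
    exact (norm_le_pi_norm x _).trans_lt hx
  have hLs : ∀ (c : Bool) (x : Fin n ⊕ Fin n → ℂ), L c (star x) = star (L c x) := by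
    intro c x
    rfl
  set G : (Fin n ⊕ Fin n → ℂ) × (Fin n ⊕ Fin n → ℂ) → ℂ := fun x =>
    (Matrix.of fun i j => P (L true x.1 + t i • L false x.1, L true x.2 + s j • L false x.2)).det with hG
  have hGa : AnalyticOnNhd ℂ G {x | x.1 ∈ ball (0 : Fin n ⊕ Fin n → ℂ) (ρ / 2) ∧
      star x.2 ∈ ball (0 : Fin n ⊕ Fin n → ℂ) (ρ / 2)} := by
    rintro ⟨x, y⟩ ⟨hx, hy⟩
    rw [mem_ball_zero_iff] at hx hy
    simp only [hG, Matrix.det_apply']
    apply Finset.analyticAt_fun_sum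
    intro σ _
    apply analyticAt_const.mul
    apply Finset.analyticAt_fun_prod
    intro i _
    have hPa : AnalyticAt ℂ P (L true x + t (σ i) • L false x, L true y + s i • L false y) := by
      apply hP
      refine ⟨hin _ _ _ (hLn _ _ hx) (hLn _ _ hx) (ht _), ?_⟩
      show star (L true y + s i • L false y) ∈ _
      rw [star_add, star_smul, ← hLs, ← hLs]
      exact hin _ _ _ (hLn _ _ hy) (hLn _ _ hy) (by rw [norm_star]; exact hs _)
    have f1 : ∀ c, AnalyticAt ℂ (fun z : (Fin n ⊕ Fin n → ℂ) × (Fin n ⊕ Fin n → ℂ) =>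
        L c z.1) (x, y) := fun c => ((L c).analyticAt x).comp_of_eq analyticAt_fst rfl
    have f2 : ∀ c, AnalyticAt ℂ (fun z : (Fin n ⊕ Fin n → ℂ) × (Fin n ⊕ Fin n → ℂ) =>
        L c z.2) (x, y) := fun c => ((L c).analyticAt y).comp_of_eq analyticAt_snd rfl
    have e1 : AnalyticAt ℂ (fun z : (Fin n ⊕ Fin n → ℂ) × (Fin n ⊕ Fin n → ℂ) =>
        L true z.1 + t (σ i) • L false z.1) (x, y) :=
      (f1 true).add (f1 false).fun_const_smul
    have e2 : AnalyticAt ℂ (fun z : (Fin n ⊕ Fin n → ℂ) × (Fin n ⊕ Fin n → ℂ) =>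
        L true z.2 + s i • L false z.2) (x, y) :=
      (f2 true).add (f2 false).fun_const_smul
    exact hPa.comp_of_eq (AnalyticAt.prod e1 e2) rfl
  have hG0 : ∀ z ∈ ball (0 : Fin n ⊕ Fin n → ℂ) (ρ / 2), G (z, star z) = 0 := by
    intro z hz
    rw [mem_ball_zero_iff] at hz
    obtain ⟨ε, g, hg⟩ := line_polar hp hP hPp (a := L true z) (b := L false z)
      (by rw [mem_ball_zero_iff]; exact hLn _ _ hz) (by rw [mem_ball_zero_iff]; exact hLn _ _ hz)
    simp only [hG, hLs]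
    have e : (Matrix.of fun i j => P (L true z + t i • L false z,
        star (L true z) + s j • star (L false z))) =
        (Matrix.of fun (i : Fin (k + 1)) (l : Fin k) => ε l * g l (t i)) *
          (Matrix.of fun (l : Fin k) (j : Fin (k + 1)) => conj (g l (conj (s j)))) := by
      ext i j
      rw [Matrix.mul_apply]
      simp only [Matrix.of_apply]
      exact hg _ _ (ht i) (hs j)
    rw [e]
    exact det_zero_of_factor _ _
  have := polar_eq isOpen_ball (convex_ball 0 (ρ / 2)) hGa hG0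
  have h2 := this (Sum.elim a b) (by
      rw [mem_ball_zero_iff, pi_norm_lt_iff (by linarith)]
      rintro (i | i)
      · exact (norm_le_pi_norm a i).trans_lt ha
      · exact (norm_le_pi_norm b i).trans_lt hb)
    (Sum.elim a' b') (by
      rw [mem_ball_zero_iff, norm_star, pi_norm_lt_iff (by linarith)]
      rintro (i | i)
      · exact (norm_le_pi_norm a' i).trans_lt ha'
      · exact (norm_le_pi_norm b' i).trans_lt hb')
  exact h2

/-- vanishing minors on pairs of coordinate lines -/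
theorem coord_det (hp : LineRank k p) {r : ℝ} (hr : 0 < r)
    (hP : AnalyticOnNhd ℂ P {x | x.1 ∈ ball 0 (4 * r) ∧ star x.2 ∈ ball (0 : Fin n → ℂ) (4 * r)})
    (hPp : ∀ z ∈ ball (0 : Fin n → ℂ) (4 * r), P (z, star z) = p z) {x y : Fin n → ℂ}
    (hx : ‖x‖ < r) (hy : ‖y‖ < r) (i j : Fin n) (t s : Fin (k + 1) → ℂ)
    (ht : ∀ l, ‖t l‖ < r) (hs : ∀ l, ‖s l‖ < r) :
    (Matrix.of fun l m => P (Function.update x i (t l), Function.update y j (s m))).det = 0 := by
  have key : ∀ (x : Fin n → ℂ) (i : Fin n) (t : ℂ), Function.update x i t =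
      Function.update x i 0 + (t / r) • (Pi.single i (r : ℂ) : Fin n → ℂ) := by
    intro x i t
    have hr' : (r : ℂ) ≠ 0 := by exact_mod_cast hr.ne'
    funext l
    rcases eq_or_ne l i with h | h
    · subst h
      simp [hr']
    · simp [h]
  have hup : ∀ (x : Fin n → ℂ) (i : Fin n), ‖x‖ < r → ‖Function.update x i 0‖ < 4 * r / 2 := by
    intro x i hx
    rw [pi_norm_lt_iff (by linarith)]
    intro l
    rcases eq_or_ne l i with h | h
    · subst h; simp; linarith
    · rw [Function.update_of_ne h]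
      have := (norm_le_pi_norm x l).trans_lt hx
      linarith
  have hsg : ∀ i : Fin n, ‖(Pi.single i (r : ℂ) : Fin n → ℂ)‖ < 4 * r / 2 := by
    intro i
    rw [pi_norm_lt_iff (by linarith)]
    intro l
    rcases eq_or_ne l i with h | h
    · subst h; simp [abs_of_pos hr]; linarith
    · rw [Pi.single_eq_of_ne h]; simp; linarith
  have hdiv : ∀ t : ℂ, ‖t‖ < r → ‖t / r‖ < 1 := by
    intro t ht
    rw [norm_div, Complex.norm_real, Real.norm_of_nonneg hr.le, div_lt_one hr]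
    exact ht
  have := line_det hp hP hPp (hup x i hx) (hsg i) (hup y j hy) (hsg j) (fun l => t l / r)
    (fun l => s l / r) (fun l => hdiv _ (ht l)) (fun l => hdiv _ (hs l))
  simp only [← key] at this
  exact this

end

end Pool.Agent.H774R2.HR
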