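import Pool.Agent.H774R2.HR.Rank

set_option autoImplicit false

open scoped Topology ComplexConjugate
open Set Filter Complex Metric

namespace Pool.Agent.H774R2.HR

open Pool.Agent.Results.MP_51bf1a_an.JetDet

/-- local polarisation of a real-analytic function -/
theorem local_polar {n : ℕ} {p : (Fin n → ℂ) → ℝ} (hp : AnalyticOnNhd ℝ p univ) (ζ : Fin n → ℂ) :
    ∃ δ > 0, ∃ P : (Fin n → ℂ) × (Fin n → ℂ) → ℂ,
      AnalyticOnNhd ℂ P {x | x.1 ∈ ball ζ δ ∧ star x.2 ∈ ball ζ δ} ∧
      ∀ z ∈ ball ζ δ, P (z, star z) = p z := by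
  have h1 : AnalyticAt ℝ (fun z => (p z : ℂ)) ζ :=
    (Complex.ofRealCLM.analyticAt _).comp_of_eq (hp ζ (mem_univ _)) rfl
  obtain ⟨F, hF, hFp⟩ := exists_complexification h1
  obtain ⟨r, hr, hFr⟩ := hF.exists_ball_analyticOnNhd
  obtain ⟨s, hs, hFs⟩ := Metric.eventually_nhds_iff_ball.1 hFp
  refine ⟨min r s, lt_min hr hs, F, ?_, ?_⟩
  · rintro ⟨x, y⟩ ⟨hx, hy⟩
    apply hFr
    rw [mem_ball, dist_eq_norm] at *
    have e : ((x, y) : (Fin n → ℂ) × (Fin n → ℂ)) - (ζ, fun i => conj (ζ i)) = (x - ζ, y - star ζ) := rfl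
    rw [e, Prod.norm_mk, max_lt_iff]
    refine ⟨hx.trans_le (min_le_left _ _), ?_⟩
    have : ‖y - star ζ‖ = ‖star y - ζ‖ := by
      rw [← norm_star (y - star ζ), star_sub, star_star]
    rw [this]
    exact hy.trans_le (min_le_left _ _)
  · intro z hz
    exact hFs z (ball_subset_ball (min_le_right _ _) hz)

variable {n k : ℕ} {p : (Fin n → ℂ) → ℝ} {P : (Fin n → ℂ) × (Fin n → ℂ) → ℂ}

/-- all `((k ^ n) ^ n + 1)`-minors of the polarisation vanish near the origin -/
theorem minors_two (hp : LineRank k p) {r : ℝ} (hr : 0 < r)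
    (hP : AnalyticOnNhd ℂ P {x | x.1 ∈ ball 0 (4 * r) ∧ star x.2 ∈ ball (0 : Fin n → ℂ) (4 * r)})
    (hPp : ∀ z ∈ ball (0 : Fin n → ℂ) (4 * r), P (z, star z) = p z)
    (x y : Fin ((k ^ n) ^ n + 1) → (Fin n → ℂ)) (hx : ∀ l, x l ∈ ball (0 : Fin n → ℂ) r)
    (hy : ∀ l, y l ∈ ball (0 : Fin n → ℂ) r) :
    (Matrix.of fun l m => P (x l, y m)).det = 0 := by
  have hsub : ∀ z ∈ ball (0 : Fin n → ℂ) r, z ∈ ball (0 : Fin n → ℂ) (4 * r) := fun z hz =>
    ball_subset_ball (by linarith) hz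
  have hst : ∀ z ∈ ball (0 : Fin n → ℂ) r, star z ∈ ball (0 : Fin n → ℂ) r := by
    intro z hz
    rw [mem_ball_zero_iff] at *
    rwa [norm_star]
  have hup : ∀ z ∈ ball (0 : Fin n → ℂ) r, ∀ i, ∀ s : ℂ, ‖s‖ < r → Function.update z i s ∈
      ball (0 : Fin n → ℂ) r := by
    intro z hz i s hs
    rw [mem_ball_zero_iff] at *
    rw [pi_norm_lt_iff hr]
    intro l
    rcases eq_or_ne l i with h | h
    · subst h; simpa using hs
    · rw [Function.update_of_ne h]
      exact (norm_le_pi_norm z l).trans_lt hz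
  have first : ∀ w ∈ ball (0 : Fin n → ℂ) r, ∀ j, ∀ x : Fin (k ^ n + 1) → (Fin n → ℂ),
      (∀ l, x l ∈ ball (0 : Fin n → ℂ) r) → ∀ s : Fin (k ^ n + 1) → ℂ, (∀ l, ‖s l‖ < r) →
      (Matrix.of fun l m => P (x l, Function.update w j (s m))).det = 0 := by
    intro w hw j x hx s hs
    apply rank_family (k := k) hr (Y := {s : ℂ // ‖s‖ < r})
      (fun s z => P (z, Function.update w j s)) ?_ ?_ x hx (fun m => ⟨s m, hs m⟩)
    · intro s z hz
      have h1 : AnalyticAt ℂ P (z, Function.update w j s) :=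
        hP _ ⟨hsub z hz, hsub _ (hst _ (hup w hw j s s.2))⟩
      exact h1.comp_of_eq (analyticAt_id.prod analyticAt_const) rfl
    · intro z hz i y t ht
      rw [mem_ball_zero_iff] at hz hw
      exact coord_det hp hr hP hPp hz hw i j t (fun l => (y l : ℂ)) ht (fun l => (y l).2)
  have second := rank_family (k := k ^ n) hr (Y := {z : Fin n → ℂ // z ∈ ball (0 : Fin n → ℂ) r})
      (fun z w => P (z, w)) (by
        intro z w hw
        have h1 : AnalyticAt ℂ P (z, w) := hP _ ⟨hsub z z.2, hsub _ (hst _ hw)⟩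
        exact h1.comp_of_eq (analyticAt_const.prod analyticAt_id) rfl) (by
        intro w hw j z s hs
        rw [← Matrix.det_transpose]
        exact first w hw j (fun l => (z l : Fin n → ℂ)) (fun l => (z l).2) s hs)
      y hy (fun m => ⟨x m, hx m⟩)
  rw [← Matrix.det_transpose]
  exact second

/-- linear independence of a tuple of germs at the origin -/
def GermIndep {n N : ℕ} (u : (Fin n → ℂ) → Fin N → ℂ) : Prop :=
  ∀ c : Fin N → ℂ, (∀ᶠ z in 𝓝 (0 : Fin n → ℂ), ∑ b, c b * u z b = 0) → c = 0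

/-- local rank decomposition at the origin -/
theorem local_rank (hp : AnalyticOnNhd ℝ p univ) (hk : LineRank k p) :
    ∃ N ≤ (k ^ n) ^ n, ∃ u c : (Fin n → ℂ) → Fin N → ℂ, AnalyticAt ℂ u 0 ∧ AnalyticAt ℂ c 0 ∧
      GermIndep u ∧ GermIndep c ∧
      ∀ᶠ z in 𝓝 (0 : Fin n → ℂ), (p z : ℂ) = ∑ b, u z b * c (star z) b := by
  obtain ⟨δ, hδ, P, hP, hPp⟩ := local_polar hp 0
  set r := δ / 4 with hr'
  have hr : 0 < r := by positivity
  have h4 : 4 * r = δ := by rw [hr']; ring
  rw [← h4] at hP hPp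
  have hsub : ∀ z ∈ ball (0 : Fin n → ℂ) r, z ∈ ball (0 : Fin n → ℂ) (4 * r) := fun z hz =>
    ball_subset_ball (by linarith) hz
  have hst : ∀ z ∈ ball (0 : Fin n → ℂ) r, star z ∈ ball (0 : Fin n → ℂ) r := by
    intro z hz
    rw [mem_ball_zero_iff] at *
    rwa [norm_star]
  have hmin := minors_two hk hr hP hPp
  classical
  let Nz : ℕ → Prop := fun N => ∃ x y : Fin N → (Fin n → ℂ), (∀ l, x l ∈ ball (0 : Fin n → ℂ) r) ∧
    (∀ l, y l ∈ ball (0 : Fin n → ℂ) r) ∧ (Matrix.of fun l m => P (x l, y m)).det ≠ 0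
  set N := Nat.findGreatest Nz ((k ^ n) ^ n) with hN
  have hN0 : Nz 0 := ⟨Fin.elim0, Fin.elim0, fun l => l.elim0, fun l => l.elim0, by simp⟩
  have hNk : N ≤ (k ^ n) ^ n := Nat.findGreatest_le _
  have hNN : Nz N := Nat.findGreatest_spec (Nat.zero_le _) hN0
  have hN1 : ¬ Nz (N + 1) := by
    rcases hNk.lt_or_eq with h | h
    · exact Nat.findGreatest_is_greatest (Nat.lt_succ_self _) h
    · rw [h]
      rintro ⟨x, y, hx, hy, h2⟩
      exact h2 (hmin x y hx hy)
  obtain ⟨x, y, hx, hy, hdet⟩ := hNN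
  set M : Matrix (Fin N) (Fin N) ℂ := Matrix.of fun l m => P (x l, y m) with hM
  have hMu : IsUnit M.det := isUnit_iff_ne_zero.2 hdet
  -- the Schur complement
  have hschur : ∀ z ∈ ball (0 : Fin n → ℂ) r, ∀ w ∈ ball (0 : Fin n → ℂ) r,
      P (z, w) = ∑ b, P (z, y b) * (M⁻¹.mulVec fun a => P (x a, w)) b := by
    intro z hz w hw
    have h0 : (Matrix.of fun l m : Fin (N + 1) => P ((Fin.snoc x z : Fin (N + 1) → Fin n → ℂ) l,
        (Fin.snoc y w : Fin (N + 1) → Fin n → ℂ) m)).det = 0 := by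
      by_contra hne
      refine hN1 ⟨Fin.snoc x z, Fin.snoc y w, ?_, ?_, hne⟩
      · intro l
        refine Fin.lastCases ?_ ?_ l
        · simpa using hz
        · intro l; simpa using hx l
      · intro l
        refine Fin.lastCases ?_ ?_ l
        · simpa using hw
        · intro l; simpa using hy l
    have e : (Matrix.of fun l m : Fin (N + 1) => P ((Fin.snoc x z : Fin (N + 1) → Fin n → ℂ) l,
        (Fin.snoc y w : Fin (N + 1) → Fin n → ℂ) m)).submatrix finSumFinEquiv finSumFinEquiv =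
        Matrix.fromBlocks M (Matrix.of fun a (_ : Fin 1) => P (x a, w))
          (Matrix.of fun (_ : Fin 1) b => P (z, y b)) (Matrix.of fun _ _ : Fin 1 => P (z, w)) := by
      ext i j
      rcases i with i | i <;> rcases j with j | j
      · simp [Matrix.fromBlocks_apply₁₁, Fin.snoc, hM]
      · have : j = 0 := Subsingleton.elim _ _
        subst this
        simp [Matrix.fromBlocks_apply₁₂, Fin.snoc]
      · have : i = 0 := Subsingleton.elim _ _
        subst this
        simp [Matrix.fromBlocks_apply₂₁, Fin.snoc]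
      · have : j = 0 := Subsingleton.elim _ _
        subst this
        have : i = 0 := Subsingleton.elim _ _
        subst this
        simp [Matrix.fromBlocks_apply₂₂, Fin.snoc]
    letI := M.invertibleOfIsUnitDet hMu
    rw [← Matrix.det_submatrix_equiv_self finSumFinEquiv, e, Matrix.det_fromBlocks₁₁] at h0
    have h1 := (mul_eq_zero.1 h0).resolve_left hdet
    rw [Matrix.det_fin_one, Matrix.sub_apply, Matrix.of_apply, sub_eq_zero] at h1
    rw [h1, Matrix.mul_assoc, Matrix.mul_apply]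
    apply Finset.sum_congr rfl
    intro b _
    rw [Matrix.invOf_eq_nonsing_inv]
    rfl
  -- analyticity in `z`
  have hPz : ∀ w ∈ ball (0 : Fin n → ℂ) r, AnalyticOnNhd ℂ (fun z => P (z, w)) (ball 0 r) := by
    intro w hw z hz
    have h1 : AnalyticAt ℂ P (z, w) := hP _ ⟨hsub z hz, hsub _ (hst _ hw)⟩
    exact h1.comp_of_eq (analyticAt_id.prod analyticAt_const) rfl
  have hPw : ∀ z ∈ ball (0 : Fin n → ℂ) r, AnalyticOnNhd ℂ (fun w => P (z, w)) (ball 0 r) := by
    intro z hz w hw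
    have h1 : AnalyticAt ℂ P (z, w) := hP _ ⟨hsub z hz, hsub _ (hst _ hw)⟩
    exact h1.comp_of_eq (analyticAt_const.prod analyticAt_id) rfl
  have hua : ∀ b, AnalyticOnNhd ℂ (fun z => P (z, y b)) (ball 0 r) := fun b => hPz (y b) (hy b)
  have hca : ∀ b, AnalyticOnNhd ℂ (fun w => (M⁻¹.mulVec fun a => P (x a, w)) b) (ball 0 r) := by
    intro b w hw
    simp only [Matrix.mulVec, dotProduct]
    apply Finset.analyticAt_fun_sum
    intro a _
    exact analyticAt_const.mul (hPw (x a) (hx a) w hw)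
  have hid : ∀ v : (Fin n → ℂ) → Fin N → ℂ, (∀ b, AnalyticOnNhd ℂ (fun z => v z b) (ball 0 r)) →
      ∀ c : Fin N → ℂ, (∀ᶠ z in 𝓝 (0 : Fin n → ℂ), ∑ b, c b * v z b = 0) →
      ∀ z ∈ ball (0 : Fin n → ℂ) r, ∑ b, c b * v z b = 0 := by
    intro v hv c hc
    have h1 : AnalyticOnNhd ℂ (fun z => ∑ b, c b * v z b) (ball 0 r) := by
      intro z hz
      apply Finset.analyticAt_fun_sum
      intro b _
      exact analyticAt_const.mul (hv b z hz)
    intro z hz
    exact h1.eqOn_zero_of_preconnected_of_eventuallyEq_zero (convex_ball 0 r).isPreconnected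
      (mem_ball_self hr) hc hz
  refine ⟨N, hNk, fun z b => P (z, y b), fun w b => (M⁻¹.mulVec fun a => P (x a, w)) b,
    ?_, ?_, ?_, ?_, ?_⟩
  · rw [analyticAt_pi_iff]
    intro b
    exact hua b 0 (mem_ball_self hr)
  · rw [analyticAt_pi_iff]
    intro b
    exact hca b 0 (mem_ball_self hr)
  · intro c hc
    have h1 := hid (fun z b => P (z, y b)) hua c hc
    have h2 : M.mulVec c = 0 := by
      funext a
      have := h1 (x a) (hx a)
      simp only [Matrix.mulVec, dotProduct, hM, Matrix.of_apply, Pi.zero_apply]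
      rw [← this]
      apply Finset.sum_congr rfl
      intro b _
      ring
    exact Matrix.eq_zero_of_mulVec_eq_zero hdet h2
  · intro c hc
    have h1 := hid _ hca c hc
    funext m
    have h2 := h1 (y m) (hy m)
    have h3 : (M⁻¹.mulVec fun a => P (x a, y m)) = Pi.single m 1 := by
      have : (fun a => P (x a, y m)) = M.mulVec (Pi.single m 1) := by
        rw [Matrix.mulVec_single_one]
        rfl
      rw [this, Matrix.mulVec_mulVec, Matrix.nonsing_inv_mul M hMu, Matrix.one_mulVec]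
    simp only [h3] at h2
    simpa [Pi.single_apply] using h2
  · filter_upwards [isOpen_ball.mem_nhds (mem_ball_self (x := (0 : Fin n → ℂ)) hr)] with z hz
    rw [← hPp z (hsub z hz)]
    exact hschur z hz (star z) (hst z hz)

end Pool.Agent.H774R2.HR
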