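import Pool.Agent.Helper706.JD.B
import Pool.Agent.Helper706.JD.C

set_option autoImplicit false

open scoped Topology ComplexConjugate
open Set Filter Complex Metric

namespace Pool.Agent.H774R2.HR

open Pool.Agent.Results.MP_51bf1a_an.JetDet

/-- uniqueness of polarisation on `Ω × conj Ω`, `Ω` open convex -/
theorem polar_eq {ι : Type} [Fintype ι] {Ω : Set (ι → ℂ)} (hΩ : IsOpen Ω) (hc : Convex ℝ Ω)
    {G : (ι → ℂ) × (ι → ℂ) → ℂ} (hG : AnalyticOnNhd ℂ G {x | x.1 ∈ Ω ∧ star x.2 ∈ Ω})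
    (h : ∀ z ∈ Ω, G (z, star z) = 0) : ∀ z ∈ Ω, ∀ w, star w ∈ Ω → G (z, w) = 0 := by
  intro z hz w hw
  have hloc : ∀ᶠ x : (ι → ℂ) × (ι → ℂ) × (Empty → ℂ) in 𝓝 0,
      G (z + x.1, star z + x.2.1) = 0 := by
    have hA : AnalyticAt ℂ (fun x : (ι → ℂ) × (ι → ℂ) × (Empty → ℂ) => G (z + x.1, star z + x.2.1)) 0 := by
      have h1 : AnalyticAt ℂ G (z, star z) := hG _ ⟨hz, by simpa using hz⟩
      have h2 : AnalyticAt ℂ (fun x : (ι → ℂ) × (ι → ℂ) × (Empty → ℂ) => (z + x.1, star z + x.2.1)) 0 :=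
        AnalyticAt.prod (analyticAt_const.add analyticAt_fst)
          (analyticAt_const.add (analyticAt_fst.comp analyticAt_snd))
      exact h1.comp_of_eq h2 (by simp)
    apply eventually_eq_zero_of_real hA
    have h3 : ∀ᶠ y : (ι → ℂ) × (Empty → ℝ) in 𝓝 0, z + y.1 ∈ Ω := by
      have : Tendsto (fun y : (ι → ℂ) × (Empty → ℝ) => z + y.1) (𝓝 0) (𝓝 z) := by
        have h4 : Continuous (fun y : (ι → ℂ) × (Empty → ℝ) => z + y.1) := by fun_prop
        simpa using h4.tendsto 0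
      exact this (hΩ.mem_nhds hz)
    filter_upwards [h3] with y hy
    have := h _ hy
    rw [star_add] at this
    exact this
  have hev : ∀ᶠ x : (ι → ℂ) × (ι → ℂ) in 𝓝 (z, star z), G x = 0 := by
    have ht : Tendsto (fun x : (ι → ℂ) × (ι → ℂ) =>
        ((x.1 - z, x.2 - star z, (fun e : Empty => (0 : ℂ))) : (ι → ℂ) × (ι → ℂ) × (Empty → ℂ)))
        (𝓝 (z, star z)) (𝓝 0) := by
      have h4 : Continuous (fun x : (ι → ℂ) × (ι → ℂ) =>
        ((x.1 - z, x.2 - star z, (fun e : Empty => (0 : ℂ))) : (ι → ℂ) × (ι → ℂ) × (Empty → ℂ))) := by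
        fun_prop
      have h5 := h4.tendsto (z, star z)
      simp only [sub_self] at h5
      exact h5
    filter_upwards [ht.eventually hloc] with x hx
    simpa using hx
  have hconv : Convex ℝ {x : (ι → ℂ) × (ι → ℂ) | x.1 ∈ Ω ∧ star x.2 ∈ Ω} := by
    intro x hx y hy a b ha hb hab
    refine ⟨hc hx.1 hy.1 ha hb hab, ?_⟩
    have : star (a • x + b • y).2 = a • star x.2 + b • star y.2 := by
      simp [star_add, star_smul]
    rw [this]
    exact hc hx.2 hy.2 ha hb hab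
  have := hG.eqOn_zero_of_preconnected_of_eventuallyEq_zero hconv.isPreconnected
    (z₀ := (z, star z)) ⟨hz, by simpa using hz⟩ hev
  exact this ⟨hz, hw⟩

end Pool.Agent.H774R2.HR
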