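import Pool.Agent.H774R2.HR.Lines

set_option autoImplicit false

open scoped Topology ComplexConjugate
open Set Filter Complex Metric

namespace Pool.Agent.H774R2.HR

/-- bordered minors: if `f` vanishes at the points `x a` and the bordered determinant vanishes -/
theorem bordered {d : ℕ} {X : Type} (g : Fin d → X → ℂ) (f : X → ℂ) (x : Fin d → X) (x₀ : X)
    (hf : ∀ a, f (x a) = 0)
    (h : (Matrix.of fun l m : Fin (d + 1) => (Fin.snoc g f : Fin (d + 1) → X → ℂ) m
      ((Fin.snoc x x₀ : Fin (d + 1) → X) l)).det = 0) :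
    (Matrix.of fun l m : Fin d => g m (x l)).det * f x₀ = 0 := by
  have e : (Matrix.of fun l m : Fin (d + 1) => (Fin.snoc g f : Fin (d + 1) → X → ℂ) m
      ((Fin.snoc x x₀ : Fin (d + 1) → X) l)).submatrix finSumFinEquiv finSumFinEquiv =
      Matrix.fromBlocks (Matrix.of fun l m : Fin d => g m (x l)) 0
        (Matrix.of fun (_ : Fin 1) (m : Fin d) => g m x₀) (Matrix.of fun _ _ : Fin 1 => f x₀) := by
    ext i j
    rcases i with i | i <;> rcases j with j | j
    · simp [Matrix.fromBlocks_apply₁₁, Fin.snoc]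
    · have : j = 0 := Subsingleton.elim _ _
      subst this
      simp [Matrix.fromBlocks_apply₁₂, Fin.snoc, hf]
    · have : i = 0 := Subsingleton.elim _ _
      subst this
      simp [Matrix.fromBlocks_apply₂₁, Fin.snoc]
    · have : j = 0 := Subsingleton.elim _ _
      subst this
      have : i = 0 := Subsingleton.elim _ _
      subst this
      simp [Matrix.fromBlocks_apply₂₂, Fin.snoc]
  rw [← Matrix.det_submatrix_equiv_self finSumFinEquiv, e, Matrix.det_fromBlocks_zero₁₂] at h
  simpa using h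

/-- the determining set lemma -/
theorem determining {k : ℕ} {r : ℝ} (hr : 0 < r) : ∀ (n : ℕ) (W : Submodule ℂ ((Fin n → ℂ) → ℂ)),
    (∀ f ∈ W, AnalyticOnNhd ℂ f (ball 0 r)) →
    (∀ x ∈ ball (0 : Fin n → ℂ) r, ∀ i, ∀ f : Fin (k + 1) → (Fin n → ℂ) → ℂ, (∀ m, f m ∈ W) →
      ∀ t : Fin (k + 1) → ℂ, (∀ l, ‖t l‖ < r) →
      (Matrix.of fun l m => f m (Function.update x i (t l))).det = 0) →
    ∃ S : Finset (Fin n → ℂ), S.card ≤ k ^ n ∧ (∀ x ∈ S, x ∈ ball (0 : Fin n → ℂ) r) ∧
      ∀ f ∈ W, (∀ x ∈ S, f x = 0) → ∀ x ∈ ball (0 : Fin n → ℂ) r, f x = 0 := by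
  intro n
  induction n with
  | zero =>
    intro W _ _
    refine ⟨{0}, by simp, by simp [hr], ?_⟩
    intro f _ h x _
    have : x = 0 := Subsingleton.elim _ _
    rw [this]
    exact h 0 (by simp)
  | succ n ih =>
    intro W hW hdet
    have hcons : ∀ (t : ℂ) (x : Fin n → ℂ), ‖t‖ < r → x ∈ ball (0 : Fin n → ℂ) r →
        (Fin.cons t x : Fin (n + 1) → ℂ) ∈ ball (0 : Fin (n + 1) → ℂ) r := by
      intro t x ht hx
      rw [mem_ball_zero_iff] at *
      rw [pi_norm_lt_iff hr]
      intro i
      refine Fin.cases ?_ ?_ i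
      · simpa using ht
      · intro i
        simpa using (norm_le_pi_norm x i).trans_lt hx
    -- slices
    have hsliceA : ∀ t : ℂ, ∀ x : Fin n → ℂ, AnalyticAt ℂ (fun x : Fin n → ℂ =>
        (Fin.cons t x : Fin (n + 1) → ℂ)) x := by
      intro t x
      rw [analyticAt_pi_iff]
      intro i
      refine Fin.cases ?_ ?_ i
      · simpa using analyticAt_const
      · intro i
        simp only [Fin.cons_succ]
        exact (ContinuousLinearMap.proj (R := ℂ) (φ := fun _ : Fin n => ℂ) i).analyticAt x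
    classical
    let Nz : ℕ → Prop := fun d => ∃ (g : Fin d → (Fin (n + 1) → ℂ) → ℂ) (x : Fin n → ℂ) (t : Fin d → ℂ),
      (∀ m, g m ∈ W) ∧ x ∈ ball (0 : Fin n → ℂ) r ∧ (∀ l, ‖t l‖ < r) ∧
        (Matrix.of fun l m => g m (Fin.cons (t l) x : Fin (n + 1) → ℂ)).det ≠ 0
    have hN0 : Nz 0 := by
      refine ⟨Fin.elim0, 0, Fin.elim0, fun m => m.elim0, by simp [hr], fun m => m.elim0, ?_⟩
      simp
    have hNk : ¬ Nz (k + 1) := by
      rintro ⟨g, x, t, hg, hx, ht, h⟩
      apply h
      have := hdet (Fin.cons 0 x) (hcons 0 x (by simpa using hr) hx) 0 g hg t ht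
      simpa [Fin.update_cons_zero] using this
    set d := Nat.findGreatest Nz k with hd
    have hdk : d ≤ k := Nat.findGreatest_le k
    have hNd : Nz d := Nat.findGreatest_spec (Nat.zero_le k) hN0
    have hNd1 : ¬ Nz (d + 1) := by
      rcases hdk.lt_or_eq with h | h
      · exact Nat.findGreatest_is_greatest (Nat.lt_succ_self _) h
      · rw [h]; exact hNk
    obtain ⟨g, x₀, t, hg, hx₀, ht, hD⟩ := hNd
    -- slices of W
    let sl : ℂ → ((Fin (n + 1) → ℂ) → ℂ) →ₗ[ℂ] ((Fin n → ℂ) → ℂ) := fun t =>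
      LinearMap.funLeft ℂ ℂ (fun x : Fin n → ℂ => (Fin.cons t x : Fin (n + 1) → ℂ))
    have hS : ∀ a : Fin d, ∃ S : Finset (Fin n → ℂ), S.card ≤ k ^ n ∧
        (∀ x ∈ S, x ∈ ball (0 : Fin n → ℂ) r) ∧
        ∀ f ∈ W.map (sl (t a)), (∀ x ∈ S, f x = 0) → ∀ x ∈ ball (0 : Fin n → ℂ) r, f x = 0 := by
      intro a
      apply ih
      · rintro _ ⟨f, hf, rfl⟩ x hx
        have h1 := hW f hf _ (hcons (t a) x (ht a) hx)
        exact h1.comp_of_eq (hsliceA (t a) x) rfl
      · intro x hx i f hf s hs
        choose F hF hFf using hf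
        have := hdet (Fin.cons (t a) x) (hcons _ x (ht a) hx) i.succ F hF s hs
        rw [← this]
        congr 1
        ext l m
        simp only [Matrix.of_apply]
        rw [← hFf m, ← Fin.cons_update]
        rfl
    choose S hScard hSb hSdet using hS
    refine ⟨Finset.univ.biUnion fun a => (S a).image (fun x => (Fin.cons (t a) x : Fin (n + 1) → ℂ)),
      ?_, ?_, ?_⟩
    · calc _ ≤ ∑ a : Fin d, ((S a).image (fun x => (Fin.cons (t a) x : Fin (n + 1) → ℂ))).card :=
            Finset.card_biUnion_le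
        _ ≤ ∑ a : Fin d, k ^ n := Finset.sum_le_sum fun a _ => Finset.card_image_le.trans (hScard a)
        _ = d * k ^ n := by simp
        _ ≤ k * k ^ n := Nat.mul_le_mul_right _ hdk
        _ = k ^ (n + 1) := by ring
    · intro x hx
      simp only [Finset.mem_biUnion, Finset.mem_univ, true_and, Finset.mem_image] at hx
      obtain ⟨a, y, hy, rfl⟩ := hx
      exact hcons _ _ (ht a) (hSb a y hy)
    · intro f hf hfS
      have hslice : ∀ a, ∀ x ∈ ball (0 : Fin n → ℂ) r, f (Fin.cons (t a) x) = 0 := by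
        intro a
        have := hSdet a (sl (t a) f) ⟨f, hf, rfl⟩ (by
          intro x hx
          apply hfS
          simp only [Finset.mem_biUnion, Finset.mem_univ, true_and, Finset.mem_image]
          exact ⟨a, x, hx, rfl⟩)
        exact this
      have hD0 : ∀ x ∈ ball (0 : Fin n → ℂ) r, ∀ s : ℂ, ‖s‖ < r →
          (Matrix.of fun l m => g m (Fin.cons (t l) x : Fin (n + 1) → ℂ)).det * f (Fin.cons s x) = 0 := by
        intro x hx s hs
        apply bordered g f (fun l => (Fin.cons (t l) x : Fin (n + 1) → ℂ)) (Fin.cons s x)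
        · intro a; exact hslice a x hx
        · by_contra hne
          apply hNd1
          refine ⟨Fin.snoc g f, x, Fin.snoc t s, ?_, hx, ?_, ?_⟩
          · intro m
            refine Fin.lastCases ?_ ?_ m
            · simpa using hf
            · intro m; simpa using hg m
          · intro m
            refine Fin.lastCases ?_ ?_ m
            · simpa using hs
            · intro m; simpa using ht m
          · convert hne using 3
            ext l m
            refine Fin.lastCases ?_ ?_ l
            · simp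
            · intro l; simp
      -- D0 is nonzero near x₀
      have hev : ∀ᶠ x in 𝓝 x₀, x ∈ ball (0 : Fin n → ℂ) r ∧
          (Matrix.of fun l m => g m (Fin.cons (t l) x : Fin (n + 1) → ℂ)).det ≠ 0 := by
        have hc : ContinuousAt (fun x : Fin n → ℂ =>
            (Matrix.of fun l m => g m (Fin.cons (t l) x : Fin (n + 1) → ℂ)).det) x₀ := by
          simp only [Matrix.det_apply']
          apply tendsto_finsetSum
          intro σ _
          apply Tendsto.const_mul
          apply tendsto_finsetProd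
          intro i _
          have h1 := hW (g i) (hg i) _ (hcons (t (σ i)) x₀ (ht _) hx₀)
          exact (h1.comp_of_eq (hsliceA (t (σ i)) x₀) rfl).continuousAt
        filter_upwards [isOpen_ball.mem_nhds hx₀, hc.eventually_ne hD] with x h1 h2
        exact ⟨h1, h2⟩
      have hz0 : (Fin.cons 0 x₀ : Fin (n + 1) → ℂ) ∈ ball (0 : Fin (n + 1) → ℂ) r :=
        hcons _ _ (by simpa using hr) hx₀
      have hev2 : ∀ᶠ z in 𝓝 (Fin.cons 0 x₀ : Fin (n + 1) → ℂ), f z = 0 := by
        have ht1 : Tendsto (fun z : Fin (n + 1) → ℂ => Fin.tail z) (𝓝 (Fin.cons 0 x₀ : Fin (n + 1) → ℂ))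
            (𝓝 x₀) := by
          have : Continuous (fun z : Fin (n + 1) → ℂ => (Fin.tail z : Fin n → ℂ)) := by
            unfold Fin.tail; fun_prop
          have h2 := this.tendsto (Fin.cons 0 x₀ : Fin (n + 1) → ℂ)
          simpa using h2
        filter_upwards [ht1.eventually hev, isOpen_ball.mem_nhds hz0] with z h1 h2
        have h3 := hD0 _ h1.1 (z 0) (by
          rw [mem_ball_zero_iff] at h2
          exact (norm_le_pi_norm z 0).trans_lt h2)
        rw [Fin.cons_self_tail] at h3
        exact (mul_eq_zero.1 h3).resolve_left h1.2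
      intro x hx
      exact (hW f hf).eqOn_zero_of_preconnected_of_eventuallyEq_zero (convex_ball 0 r).isPreconnected
        hz0 hev2 hx

/-- vanishing minors pass to the span of a family -/
theorem minors_span {k : ℕ} {X Y : Type} (F : Y → X → ℂ) (x : Fin (k + 1) → X)
    (h : ∀ y : Fin (k + 1) → Y, (Matrix.of fun l m => F (y m) (x l)).det = 0)
    (f : Fin (k + 1) → X → ℂ) (hf : ∀ m, f m ∈ Submodule.span ℂ (range F)) :
    (Matrix.of fun l m => f m (x l)).det = 0 := by
  set V : Submodule ℂ (Fin (k + 1) → ℂ) := Submodule.span ℂ (range fun y => fun l => F y (x l)) with hV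
  have hVne : V ≠ ⊤ := by
    intro htop
    obtain ⟨b, hb, hspan, hli⟩ := exists_linearIndependent ℂ (range fun y => fun l => F y (x l))
    have hspan' : Submodule.span ℂ b = ⊤ := by rw [hspan]; exact htop
    have hbasis : ⊤ ≤ Submodule.span ℂ (range ((↑) : b → (Fin (k + 1) → ℂ))) := by
      rw [Subtype.range_coe, hspan']
    let B := Module.Basis.mk hli hbasis
    have : Fintype b := FiniteDimensional.fintypeBasisIndex B
    have hcard : Fintype.card b = k + 1 := by
      have := Module.finrank_eq_card_basis B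
      simpa using this.symm
    let e : Fin (k + 1) ≃ b := (Fintype.equivFinOfCardEq hcard).symm
    have hy : ∀ m : Fin (k + 1), ∃ y, (fun l => F y (x l)) = (e m : Fin (k + 1) → ℂ) :=
      fun m => hb (e m).2
    choose y hy using hy
    have hdet := h y
    have hli2 : LinearIndependent ℂ (fun m : Fin (k + 1) => (e m : Fin (k + 1) → ℂ)) :=
      hli.comp e e.injective
    have hunit := (Matrix.linearIndependent_rows_iff_isUnit
      (A := Matrix.of fun m l => (e m : Fin (k + 1) → ℂ) l)).1 hli2
    rw [Matrix.isUnit_iff_isUnit_det] at hunit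
    apply hunit.ne_zero
    rw [← hdet, ← Matrix.det_transpose]
    congr 1
    ext l m
    simp only [Matrix.transpose_apply, Matrix.of_apply]
    rw [← hy m]
  obtain ⟨φ, hφ, hVφ⟩ := Submodule.exists_le_ker_of_lt_top V (lt_top_iff_ne_top.2 hVne)
  have hmem : ∀ m, (fun l => f m (x l)) ∈ V := by
    intro m
    have : (fun l => f m (x l)) = LinearMap.funLeft ℂ ℂ x (f m) := rfl
    rw [this]
    have h2 : LinearMap.funLeft ℂ ℂ x (f m) ∈ (Submodule.span ℂ (range F)).map (LinearMap.funLeft ℂ ℂ x) :=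
      ⟨f m, hf m, rfl⟩
    rw [Submodule.map_span, ← range_comp] at h2
    exact h2
  apply Matrix.exists_vecMul_eq_zero_iff.1
  refine ⟨fun l => φ (Pi.single l 1), ?_, ?_⟩
  · intro h0
    apply hφ
    apply LinearMap.pi_ext'
    intro l
    ext
    simpa using congrFun h0 l
  · funext m
    have h1 : φ (fun l => f m (x l)) = 0 := hVφ (hmem m)
    have h2 : (fun l => f m (x l)) = ∑ l, f m (x l) • (Pi.single l 1 : Fin (k + 1) → ℂ) := by
      funext j
      simp [Finset.sum_apply, Pi.single_apply]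
    rw [h2, map_sum] at h1
    simp only [Matrix.vecMul, dotProduct, Matrix.of_apply, Pi.zero_apply]
    rw [← h1]
    apply Finset.sum_congr rfl
    intro l _
    rw [map_smul, smul_eq_mul]
    ring

/-- a determining set bounds the minors -/
theorem minors_of_determining {m : ℕ} {X : Type} {W : Submodule ℂ (X → ℂ)} {U : Set X} {S : Finset X}
    (hcard : S.card ≤ m) (hS : ∀ f ∈ W, (∀ x ∈ S, f x = 0) → ∀ x ∈ U, f x = 0)
    (f : Fin (m + 1) → X → ℂ) (hf : ∀ j, f j ∈ W) (x : Fin (m + 1) → X) (hx : ∀ l, x l ∈ U) :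
    (Matrix.of fun l j => f j (x l)).det = 0 := by
  let T : (Fin (m + 1) → ℂ) →ₗ[ℂ] (S → ℂ) :=
    (Matrix.of fun (s : S) j => f j s).mulVecLin
  obtain ⟨c, hc, hc0⟩ := Submodule.exists_mem_ne_zero_of_ne_bot
    (LinearMap.ker_ne_bot_of_finrank_lt (f := T) (by simp; omega))
  apply Matrix.exists_mulVec_eq_zero_iff.1
  refine ⟨c, hc0, ?_⟩
  have hsum : (∑ j, c j • f j) ∈ W := Submodule.sum_mem _ fun j _ => Submodule.smul_mem _ _ (hf j)
  have h0 := hS _ hsum (by
    intro s hs
    have := congrFun (LinearMap.mem_ker.1 hc) ⟨s, hs⟩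
    simp only [T, Matrix.mulVecLin_apply, Matrix.mulVec, dotProduct, Matrix.of_apply, Pi.zero_apply] at this
    rw [← this, Finset.sum_apply]
    apply Finset.sum_congr rfl
    intro j _
    simp [mul_comm])
  funext l
  have := h0 (x l) (hx l)
  rw [Finset.sum_apply] at this
  simp only [Matrix.mulVec, dotProduct, Matrix.of_apply, Pi.zero_apply]
  rw [← this]
  apply Finset.sum_congr rfl
  intro j _
  simp [mul_comm]

/-- the rank bound for a family of analytic functions -/
theorem rank_family {k n : ℕ} {r : ℝ} (hr : 0 < r) {Y : Type} (F : Y → (Fin n → ℂ) → ℂ)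
    (hF : ∀ y, AnalyticOnNhd ℂ (F y) (ball 0 r))
    (h : ∀ x ∈ ball (0 : Fin n → ℂ) r, ∀ i, ∀ y : Fin (k + 1) → Y,
      ∀ t : Fin (k + 1) → ℂ, (∀ l, ‖t l‖ < r) →
      (Matrix.of fun l m => F (y m) (Function.update x i (t l))).det = 0)
    (x : Fin (k ^ n + 1) → (Fin n → ℂ)) (hx : ∀ l, x l ∈ ball (0 : Fin n → ℂ) r)
    (y : Fin (k ^ n + 1) → Y) :
    (Matrix.of fun l m => F (y m) (x l)).det = 0 := by
  obtain ⟨S, hS, _, hdet⟩ := determining (k := k) hr n (Submodule.span ℂ (range F)) (by
    intro f hf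
    refine Submodule.span_induction (p := fun f _ => AnalyticOnNhd ℂ f (ball 0 r)) ?_ ?_ ?_ ?_ hf
    · rintro _ ⟨y, rfl⟩; exact hF y
    · intro x _; exact analyticAt_const
    · intro f g _ _ hf hg x hx; exact (hf x hx).add (hg x hx)
    · intro c f _ hf x hx; exact (hf x hx).const_smul) (by
    intro x hx i f hf t ht
    exact minors_span F (fun l => Function.update x i (t l)) (fun y => h x hx i y t ht) f hf)
  exact minors_of_determining hS hdet _ (fun j => Submodule.subset_span ⟨y j, rfl⟩) x hx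

end Pool.Agent.H774R2.HR
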